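import Pool.Agent.helper83.ORE.SpecDE

/-!
# Row ore:DZE
-/

set_option autoImplicit false

namespace Pool.Agent.ORE

open Module Pool.Agent.GS

theorem DZE_two {F K : Type} [Field F] [Field K] [Algebra F K] (h2 : (2 : F) = 0) :
    (2 : K) = 0 := by
  have h := congrArg (algebraMap F K) h2
  rwa [map_ofNat, map_zero] at h

section

variable {F V K : Type} [Field F] [AddCommGroup V] [Module F V] [Field K] [Algebra F K]

theorem DZE_Q {Q : QuadraticForm F V} {k : Equiv.Perm V} (hk : k ∈ OQ Q) {σ : K}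
    {j : K →ₗ[F] V} (h : Dq Q k σ j) (X Y : K) :
    Q (j X + k (j Y)) = Algebra.trace F K (X ^ 2 + Y ^ 2 + σ * Y * X) := by
  rw [Q_add, hk.2, h.q, h.q, pb_symm, h.f, map_add, map_add]

theorem DZE_jj {Q : QuadraticForm F V} (h2 : (2 : F) = 0) {k : Equiv.Perm V} {σ : K}
    {j : K →ₗ[F] V} (h : Dq Q k σ j) (X X' : K) : pb Q (j X) (j X') = 0 := by
  have h2K : (2 : K) = 0 := DZE_two (F := F) h2
  have h1 := Q_add Q (j X) (j X')
  rw [← map_add, h.q, h.q, h.q] at h1
  have h3 : (X + X') ^ 2 = X ^ 2 + X' ^ 2 := by linear_combination X * X' * h2K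
  rw [h3, map_add] at h1
  linear_combination -h1

theorem DZE_B {Q : QuadraticForm F V} (h2 : (2 : F) = 0) {k : Equiv.Perm V} (hk : k ∈ OQ Q)
    {σ : K} {j : K →ₗ[F] V} (h : Dq Q k σ j) (X Y X' Y' : K) :
    pb Q (j X + k (j Y)) (j X' + k (j Y')) =
      Algebra.trace F K (σ * Y' * X + σ * Y * X') := by
  rw [map_add (pb Q), LinearMap.add_apply, map_add (pb Q (j X)), map_add (pb Q (k (j Y))),
    DZE_jj h2 h, OQ_pb hk, DZE_jj h2 h, pb_symm Q (j X), h.f, h.f, map_add]
  ring

end

theorem DZE_tr {F E K : Type} [Field F] [Field E] [Algebra F E]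
    [Field K] [Algebra F K] [Algebra E K] [IsScalarTower F E K] [FiniteDimensional F E]
    [FiniteDimensional E K] (e : E) (v : K) :
    Algebra.trace F K (e • v) = Algebra.trace F E (e * Algebra.trace E K v) := by
  rw [← Algebra.trace_trace (R := F) (S := E) (T := K), map_smul, smul_eq_mul]

theorem DZE : DZE_stmt := by
  intro F E K V _ _ _ _ _ _ _ _ _ _ _ _ _ _ _ Q h2 k hk σ j hD a ρ ha n u hu
  have h2K : (2 : K) = 0 := DZE_two (F := F) h2
  have hσ := hD.s0
  let ζ : ZMod n → QL ρ →ₗ[F] V := fun i =>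
    { toFun := fun z => j (z.re • u i + a * (z.im • u i)) + k (j (σ⁻¹ * (z.im • u i)))
      map_add' := by
        intro z w
        have e1 : (z + w).re • u i + a * ((z + w).im • u i) =
            (z.re • u i + a * (z.im • u i)) + (w.re • u i + a * (w.im • u i)) := by
          rw [QuadraticAlgebra.re_add, QuadraticAlgebra.im_add, add_smul, add_smul]
          ring
        have e2 : σ⁻¹ * ((z + w).im • u i) = σ⁻¹ * (z.im • u i) + σ⁻¹ * (w.im • u i) := by
          rw [QuadraticAlgebra.im_add, add_smul]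
          ring
        rw [e1, e2, map_add j (z.re • u i + a * (z.im • u i)), map_add j (σ⁻¹ * (z.im • u i)),
          hk.1.1]
        abel
      map_smul' := by
        intro c z
        have e1 : (c • z).re • u i + a * ((c • z).im • u i) =
            c • (z.re • u i + a * (z.im • u i)) := by
          rw [QuadraticAlgebra.re_smul, QuadraticAlgebra.im_smul, smul_assoc, smul_assoc,
            smul_add, mul_smul_comm]
        have e2 : σ⁻¹ * ((c • z).im • u i) = c • (σ⁻¹ * (z.im • u i)) := by
          rw [QuadraticAlgebra.im_smul, smul_assoc, mul_smul_comm]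
        rw [e1, e2, map_smul, map_smul, hk.1.2, RingHom.id_apply, smul_add] }
  have hζ : ∀ i z, ζ i z = j (z.re • u i + a * (z.im • u i)) + k (j (σ⁻¹ * (z.im • u i))) :=
    fun _ _ => rfl
  have hB : ∀ i l z w, pb Q (ζ i z) (ζ l w) =
      Algebra.trace F E ((z.re * w.im + z.im * w.re) * if i = l then 1 else 0) := by
    intro i l z w
    rw [hζ, hζ, DZE_B h2 hk hD, ← hu i l, ← DZE_tr]
    congr 1
    simp only [Algebra.smul_def, map_add, map_mul]
    field_simp
    linear_combination (algebraMap E K z.im * algebraMap E K w.im * u i * u l * a) * h2K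
  refine ⟨ζ, ?_, ?_, ?_⟩
  · intro i z
    have h1 : Algebra.trace E K (u i * u i) = 1 := by rw [hu i i, if_pos rfl]
    rw [hζ, DZE_Q hk hD]
    have h3 : Algebra.trace F E (z.re ^ 2 + z.re * z.im + ρ * z.im ^ 2) =
        Algebra.trace F K ((z.re ^ 2 + z.re * z.im + ρ * z.im ^ 2) • (u i * u i)) := by
      rw [DZE_tr, h1, mul_one]
    rw [h3]
    congr 1
    simp only [Algebra.smul_def, map_add, map_mul, map_pow, ← ha]
    field_simp
    linear_combination (algebraMap E K z.re * algebraMap E K z.im * u i * u i * a * σ ^ 2) * h2K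
  · intro i z w
    rw [hB, if_pos rfl, mul_one]
  · intro i l z w hil
    rw [hB, if_neg hil, mul_zero, map_zero]

end Pool.Agent.ORE
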