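import Pool.Agent.helper53.ORE.Spec

/-!
# Row ore:M1
-/

set_option autoImplicit false

namespace Pool.Agent.ORE

open Module Pool.Agent.GS

variable {F V : Type} [Field F] [AddCommGroup V] [Module F V]

/-- the matrix of the product on the plane -/
def M1_mat (s : F) : Matrix (Fin 2) (Fin 2) F := !![1, 1; s, 1 + s]

theorem M1_pow (z : Equiv.Perm V) (hz : Lin F z) (u v' : V) (s : F)
    (h1 : z u = u + s • v') (h2 : z v' = u + (1 + s) • v') (j : ℕ) :
    (z ^ j) u = (M1_mat s ^ j) 0 0 • u + (M1_mat s ^ j) 1 0 • v' ∧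
      (z ^ j) v' = (M1_mat s ^ j) 0 1 • u + (M1_mat s ^ j) 1 1 • v' := by
  induction j with
  | zero =>
    constructor
    · simp
    · simp
  | succ j ih =>
    obtain ⟨ih1, ih2⟩ := ih
    have e : ∀ a b : Fin 2, (M1_mat s ^ (j + 1)) a b =
        M1_mat s a 0 * (M1_mat s ^ j) 0 b + M1_mat s a 1 * (M1_mat s ^ j) 1 b := by
      intro a b
      rw [pow_succ', Matrix.mul_apply, Fin.sum_univ_two]
    have a00 : M1_mat s 0 0 = 1 := rfl
    have a01 : M1_mat s 0 1 = 1 := rfl
    have a10 : M1_mat s 1 0 = s := rfl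
    have a11 : M1_mat s 1 1 = 1 + s := rfl
    constructor
    · rw [pow_succ' z, Equiv.Perm.mul_apply, ih1, hz.1, hz.2, hz.2, h1, h2, e, e, a00, a01, a10,
        a11]
      module
    · rw [pow_succ' z, Equiv.Perm.mul_apply, ih2, hz.1, hz.2, hz.2, h1, h2, e, e, a00, a01, a10,
        a11]
      module

theorem M1 (hyp : HYP_stmt) (sg : SGQ_stmt) : M1_stmt := by
  intro F V _ _ _ _ _ Q h2 hN hdim y hB r s hs hD
  obtain ⟨-, u, u', v, v', qu, qu', qv, qv', huu, hvv, huv, huv', hu'v, hu'v'⟩ :=
    hyp Q h2 hN (by omega)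
  have huu2 : pb Q u' u = 1 := by rw [pb_symm]; exact huu
  have hvv2 : pb Q v' v = 1 := by rw [pb_symm]; exact hvv
  have huv2 : pb Q v u = 0 := by rw [pb_symm]; exact huv
  have huv2' : pb Q v' u = 0 := by rw [pb_symm]; exact huv'
  have hu'v2 : pb Q v u' = 0 := by rw [pb_symm]; exact hu'v
  have hu'v2' : pb Q v' u' = 0 := by rw [pb_symm]; exact hu'v'
  have qsv : Q (s • v') = 0 := by rw [Q_smul, qv', mul_zero]
  have husv : pb Q u' (s • v') = 0 := by rw [map_smul, hu'v', smul_zero]
  -- linear independence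
  have li1 : LinearIndependent F ![u, v] := by
    rw [LinearIndependent.pair_iff]
    intro a b hab
    constructor
    · have := congrArg (fun w => pb Q w u') hab
      simpa [huu, hu'v2] using this
    · have := congrArg (fun w => pb Q w v') hab
      simpa [huv', hvv] using this
  have li2 : LinearIndependent F ![u', s • v'] := by
    rw [LinearIndependent.pair_iff]
    intro a b hab
    constructor
    · have := congrArg (fun w => pb Q w u) hab
      simpa [huu2, huv2'] using this
    · have := congrArg (fun w => pb Q w v) hab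
      have h3 : b * s = 0 := by simpa [hu'v, hvv2] using this
      rcases mul_eq_zero.1 h3 with h | h
      · exact h
      · exact absurd h hs
  have li3 : ∀ a b : F, a • u + b • v' = 0 → a = 0 ∧ b = 0 := by
    intro a b hab
    constructor
    · have := congrArg (fun w => pb Q w u') hab
      simpa [huu, hu'v2'] using this
    · have := congrArg (fun w => pb Q w v) hab
      simpa [huv, hvv2] using this
  -- the action of z
  have e1 : sq Q u v u = u := by
    rw [sq_apply h2 qu huv, pb_self2 h2, huv, qv]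
    simp
  have e2 : sq Q u v v' = v' + u := by
    rw [sq_apply h2 qu huv, huv2', hvv2, qv]
    simp
  have e3 : sq Q u' (s • v') u = u + s • v' := by
    rw [sq_apply h2 qu' husv, huu, qsv, map_smul, huv']
    simp
  have e4 : sq Q u' (s • v') v' = v' := by
    rw [sq_apply h2 qu' husv, hu'v2', qsv, map_smul, pb_self2 h2]
    simp
  have hl1 : Lin F (sq Q u' (s • v')) := (sq_mem Q u' (s • v')).1
  have hz0 : sq Q u' (s • v') * sq Q u v ∈ OQ Q := (OQ Q).mul_mem (sq_mem _ _ _) (sq_mem _ _ _)
  have z1 : (sq Q u' (s • v') * sq Q u v) u = u + s • v' := by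
    rw [Equiv.Perm.mul_apply, e1, e3]
  have z2 : (sq Q u' (s • v') * sq Q u v) v' = u + (1 + s) • v' := by
    rw [Equiv.Perm.mul_apply, e2, hl1.1, e3, e4, add_smul, one_smul]
    abel
  refine ⟨sq Q u' (s • v') * sq Q u v, ?_, ?_, ?_⟩
  · exact (OmQ Q).mul_mem (sg Q h2 hN hdim u' (s • v') qu' husv) (sg Q h2 hN hdim u v qu huv)
  · exact Gq.mul (hB u' (s • v') li2 qu' qsv husv) (hB u v li1 qu qv huv) hl1
  · intro j c hc
    obtain ⟨p1, p2⟩ := M1_pow _ hz0.1 u v' s z1 z2 j
    rw [hc] at p1 p2
    have q1 : (c - (M1_mat s ^ j) 0 0) • u + (-((M1_mat s ^ j) 1 0)) • v' = 0 := by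
      rw [sub_smul, p1]
      module
    have q2 : (-((M1_mat s ^ j) 0 1)) • u + (c - (M1_mat s ^ j) 1 1) • v' = 0 := by
      rw [sub_smul, p2]
      module
    obtain ⟨r1, r2⟩ := li3 _ _ q1
    obtain ⟨r3, r4⟩ := li3 _ _ q2
    have m00 : (M1_mat s ^ j) 0 0 = c := (sub_eq_zero.1 r1).symm
    have m10 : (M1_mat s ^ j) 1 0 = 0 := neg_eq_zero.1 r2
    have m01 : (M1_mat s ^ j) 0 1 = 0 := neg_eq_zero.1 r3
    have m11 : (M1_mat s ^ j) 1 1 = c := (sub_eq_zero.1 r4).symm
    have hdet0 : (M1_mat s).det = 1 := by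
      unfold M1_mat
      rw [Matrix.det_fin_two_of]
      ring
    have hdet : (M1_mat s ^ j).det = 1 := by rw [Matrix.det_pow, hdet0, one_pow]
    rw [Matrix.det_fin_two, m00, m10, m01, m11] at hdet
    have hc1 : c = 1 := by
      have h3 : (c - 1) * (c - 1) = 0 := by linear_combination hdet - (c - 1) * h2
      rcases mul_eq_zero.1 h3 with h | h
      · exact sub_eq_zero.1 h
      · exact sub_eq_zero.1 h
    refine hD (M1_mat s) hdet0 ?_ j ?_
    · unfold M1_mat
      rw [Matrix.trace_fin_two_of]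
      linear_combination h2
    · ext a b
      fin_cases a <;> fin_cases b
      · simpa using m00.trans hc1
      · simpa using m01
      · simpa using m10
      · simpa using m11.trans hc1

end Pool.Agent.ORE
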